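import Mathlib
import Pool.Agent.Work.MP_db9399_px.LInterface

/-! Block BALL of PARTX (MP_db9399, THEOREM EXP): balls. -/

set_option autoImplicit false

namespace Pool.Agent.Work.MP_db9399_px.helper99

open Finset Classical
open Pool.Agent.Work.MP_db9399_all (nb pr DepOnI PackI)
open Pool.Agent.Work.MP_db9399_px

universe u

section ball

variable {V : Type u} [Fintype V] (G : SimpleGraph V)

lemma mem_lball {k : ℕ} {x z : V} :
    z ∈ lball G k x ↔ ∃ w : ℕ → V, LWalk G k w ∧ w 0 = x ∧ w k = z := by
  simp [lball]

lemma lball_card {d : ℕ} (hd : ∀ v, (nb G v).card ≤ d) (k : ℕ) (x : V) :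
    (lball G k x).card ≤ (d + 1) ^ k := by
  induction k with
  | zero =>
    rw [pow_zero, Finset.card_le_one]
    intro a ha b hb
    rw [mem_lball] at ha hb
    obtain ⟨w, -, h1, h2⟩ := ha
    obtain ⟨w', -, h1', h2'⟩ := hb
    rw [← h2, ← h2', h1, h1']
  | succ k ih =>
    have hsub : lball G (k + 1) x ⊆ (lball G k x).biUnion (fun y => insert y (nb G y)) := by
      intro z hz
      rw [mem_lball] at hz
      obtain ⟨w, h0, h1, h2⟩ := hz
      rw [mem_biUnion]
      refine ⟨w k, (mem_lball G).2 ⟨w, fun i hi => h0 i (by omega), h1, rfl⟩, ?_⟩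
      rw [mem_insert]
      rcases h0 k (by omega) with h | h
      · left; rw [← h2, h]
      · right; rw [← h2]; simpa [nb] using h
    calc (lball G (k + 1) x).card
        ≤ ((lball G k x).biUnion (fun y => insert y (nb G y))).card := card_le_card hsub
      _ ≤ (lball G k x).card * (d + 1) := by
          apply card_biUnion_le_card_mul
          intro y _
          exact (card_insert_le _ _).trans (Nat.add_le_add_right (hd y) 1)
      _ ≤ (d + 1) ^ k * (d + 1) := Nat.mul_le_mul_right _ ih
      _ = (d + 1) ^ (k + 1) := (pow_succ _ _).symm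

lemma lball_symm {k : ℕ} {x z : V} (h : z ∈ lball G k x) : x ∈ lball G k z := by
  rw [mem_lball] at h ⊢
  obtain ⟨w, h0, h1, h2⟩ := h
  refine ⟨fun i => w (k - i), ?_, by simpa using h2, by simpa using h1⟩
  intro i hi
  have h3 := h0 (k - (i + 1)) (by omega)
  have e : k - (i + 1) + 1 = k - i := by omega
  rw [e] at h3
  rcases h3 with h3 | h3
  · left; exact h3.symm
  · right; exact h3.symm

lemma lball_step {k : ℕ} {x v z : V} (h : v ∈ lball G k x) (hz : z = v ∨ G.Adj v z) :
    z ∈ lball G (k + 1) x := by
  rw [mem_lball] at h ⊢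
  obtain ⟨w, h0, h1, h2⟩ := h
  refine ⟨fun i => if i ≤ k then w i else z, ?_, by simpa using h1, by simp⟩
  intro i hi
  by_cases hik : i < k
  · have h3 : i + 1 ≤ k := hik
    have h4 : i ≤ k := hik.le
    simp only [h3, h4, if_true]
    exact h0 i hik
  · have hi' : i = k := by omega
    subst hi'
    simp only [le_refl, if_true, show ¬ (i + 1 ≤ i) by omega, if_false]
    rw [h2]
    exact hz

lemma lball_walk {L : ℕ} {w : ℕ → V} (h : LWalk G L w) {i : ℕ} (hi : i ≤ L) :
    w i ∈ lball G L (w 0) := by
  rw [mem_lball]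
  refine ⟨fun j => w (min j i), ?_, by simp, by simp [hi]⟩
  intro j hj
  by_cases hji : j < i
  · have e1 : min (j + 1) i = j + 1 := by omega
    have e2 : min j i = j := by omega
    simp only [e1, e2]
    exact h j hj
  · have e1 : min (j + 1) i = i := by omega
    have e2 : min j i = i := by omega
    simp only [e1, e2]
    left; trivial

end ball

theorem stmt_BALL : Stmt_BALL.{u} := by
  intro V _ G d hd
  exact ⟨fun k x => lball_card G hd k x, fun k x z h => lball_symm G h,
    fun k x v z h hz => lball_step G h hz, fun L w h i hi => lball_walk G h hi⟩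

end Pool.Agent.Work.MP_db9399_px.helper99
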