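import Mathlib
import Pool.Agent.Work.MP_db9399_px.Interface

/-! Block FN of PARTX (MP_db9399, THEOREM EXP): the functional form of expansion. -/

set_option autoImplicit false

namespace Pool.Agent.Work.MP_db9399_px.helper99

open Finset Classical
open Pool.Agent.Work.MP_db9399_all (nb pr DepOnI PackI)
open Pool.Agent.Work.MP_db9399_px

universe u

variable {V : Type u} [Fintype V] (G : SimpleGraph V)

lemma nb_inter_card (v : V) (B : Finset V) :
    ((nb G v ∩ B).card : ℝ) = ∑ b ∈ B, (if G.Adj v b then (1 : ℝ) else 0) := by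
  have : nb G v ∩ B = B.filter (fun b => G.Adj v b) := by
    ext b
    simp [nb, and_comm]
  rw [this, Finset.card_filter]
  push_cast
  rfl

lemma ee_eq (A B : Finset V) :
    ee G A B = ∑ a ∈ A, ∑ b ∈ B, (if G.Adj a b then (1 : ℝ) else 0) := by
  unfold ee
  exact Finset.sum_congr rfl (fun a _ => nb_inter_card G a B)

lemma ee_symm (A B : Finset V) : ee G A B = ee G B A := by
  rw [ee_eq, ee_eq, Finset.sum_comm]
  refine Finset.sum_congr rfl (fun a _ => Finset.sum_congr rfl (fun b _ => ?_))
  simp only [G.adj_comm]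

lemma ee_le_left {d : ℕ} (hd : ∀ v, (nb G v).card ≤ d) (A B : Finset V) :
    ee G A B ≤ d * A.card := by
  unfold ee
  calc ∑ a ∈ A, ((nb G a ∩ B).card : ℝ) ≤ ∑ _a ∈ A, (d : ℝ) := by
        apply Finset.sum_le_sum
        intro a _
        exact_mod_cast (Finset.card_le_card Finset.inter_subset_left).trans (hd a)
    _ = d * A.card := by rw [Finset.sum_const, nsmul_eq_mul, mul_comm]

lemma ee_le_right {d : ℕ} (hd : ∀ v, (nb G v).card ≤ d) (A B : Finset V) :
    ee G A B ≤ d * B.card := by
  rw [ee_symm]; exact ee_le_left G hd B A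

lemma ee_compl (A B : Finset V) :
    ee G A (univ \ B) = (∑ a ∈ A, ((nb G a).card : ℝ)) - ee G A B := by
  unfold ee
  rw [← Finset.sum_sub_distrib]
  refine Finset.sum_congr rfl (fun a _ => ?_)
  have h : (nb G a ∩ (univ \ B)).card + (nb G a ∩ B).card = (nb G a).card := by
    have : nb G a ∩ (univ \ B) = nb G a \ B := by
      ext b; simp
    rw [this]
    exact Finset.card_sdiff_add_card_inter _ _
  rw [eq_sub_iff_add_eq]
  exact_mod_cast h

lemma ee_mono_left {A A' : Finset V} (h : A' ⊆ A) (B : Finset V) : ee G A' B ≤ ee G A B := by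
  unfold ee
  exact Finset.sum_le_sum_of_subset_of_nonneg h (fun _ _ _ => by positivity)

lemma ee_split (A : Finset V) {B B' : Finset V} (h : B' ⊆ B) :
    ee G A B = ee G A B' + ee G A (B \ B') := by
  unfold ee
  rw [← Finset.sum_add_distrib]
  refine Finset.sum_congr rfl (fun a _ => ?_)
  have h1 : (nb G a ∩ B).card = (nb G a ∩ B').card + (nb G a ∩ (B \ B')).card := by
    rw [← Finset.card_union_of_disjoint]
    · congr 1
      ext b
      simp only [mem_inter, mem_union, mem_sdiff]
      constructor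
      · rintro ⟨h1, h2⟩
        by_cases h3 : b ∈ B'
        · exact Or.inl ⟨h1, h3⟩
        · exact Or.inr ⟨h1, h2, h3⟩
      · rintro (⟨h1, h2⟩ | ⟨h1, h2, _⟩)
        · exact ⟨h1, h h2⟩
        · exact ⟨h1, h2⟩
    · rw [Finset.disjoint_left]
      intro b hb hb'
      simp only [mem_inter, mem_sdiff] at hb hb'
      exact hb'.2.2 hb.2
  exact_mod_cast h1

lemma deg_sum_ge {d : ℕ} {ε : ℝ} (h : NR G d ε) (A : Finset V) :
    (1 - ε) * d * A.card ≤ ∑ a ∈ A, ((nb G a).card : ℝ) := by
  calc (1 - ε) * d * A.card = ∑ _a ∈ A, ((1 - ε) * d : ℝ) := by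
        rw [Finset.sum_const, nsmul_eq_mul, mul_comm]
    _ ≤ _ := Finset.sum_le_sum (fun a _ => (h a).2)

/-- The case `2|A| ≤ n`. -/
lemma fn_small {d : ℕ} {γ ε : ℝ} (hNR : NR G d ε) (hBE : BE G d γ) (A B : Finset V)
    (hA : 2 * A.card ≤ Fintype.card V) :
    (γ / 2 - ε) * d * A.card ≤ ff G ((d : ℝ) / 2) univ A B := by
  have hd : ∀ v, (nb G v).card ≤ d := fun v => (hNR v).1
  have h1 := deg_sum_ge G hNR A
  unfold ff
  rw [ee_compl]
  have hl := ee_le_left G hd A B
  have hr := ee_le_right G hd A B
  rcases le_total B.card A.card with h | h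
  · have h2 := hBE A B h hA
    nlinarith
  · obtain ⟨B', hB', hcard⟩ := Finset.exists_subset_card_eq h
    have h2 := hBE A B' hcard.le hA
    have h3 := ee_split G A hB'
    have h4 := ee_le_right G hd A (B \ B')
    have h5 : ((B \ B').card : ℝ) = B.card - A.card := by
      have := Finset.card_sdiff_add_card_eq_card hB'
      rw [hcard] at this
      rw [eq_sub_iff_add_eq]
      exact_mod_cast this
    rw [h5] at h4
    nlinarith

lemma stmt_FN : Stmt_FN.{u} := by
  intro V _ G d γ ε hγ hγ1 hε hεγ hn hNR hBE A B hB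
  have hd : ∀ v, (nb G v).card ≤ d := fun v => (hNR v).1
  set n := Fintype.card V with hnn
  have hd0 : (0 : ℝ) ≤ d := Nat.cast_nonneg d
  have hAn : (A.card : ℝ) ≤ n := by exact_mod_cast Finset.card_le_univ A
  have hBn : (B.card : ℝ) ≤ n := by exact_mod_cast Finset.card_le_univ B
  have hn16 : 16 ≤ γ * n := by
    rw [div_le_iff₀ hγ] at hn
    linarith
  have hn0 : (0 : ℝ) ≤ n := Nat.cast_nonneg n
  have key : ∀ t : ℝ, γ / 16 * n ≤ t → γ / 16 * d * A.card ≤ d * t := by
    intro t ht
    have : γ / 16 * d * A.card ≤ d * (γ / 16 * n) := by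
      have := mul_le_mul_of_nonneg_left hAn (show 0 ≤ γ / 16 * d by positivity)
      linarith
    exact this.trans (mul_le_mul_of_nonneg_left ht hd0)
  rcases Nat.lt_or_ge n (2 * A.card) with hA | hA
  swap
  · have h := fn_small G hNR hBE A B hA
    refine le_trans ?_ h
    have : 0 ≤ (d : ℝ) * A.card := by positivity
    nlinarith
  rcases Nat.lt_or_ge n (2 * B.card) with hB2 | hB2
  · -- both large
    have h := fn_small G hNR hBE (univ \ B) (univ \ A) (by
      rw [Finset.card_sdiff_of_subset (subset_univ _), Finset.card_univ]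
      omega)
    have hcB : ((univ \ B : Finset V).card : ℝ) = n - B.card := by
      rw [Finset.card_sdiff_of_subset (subset_univ _), Finset.card_univ, Nat.cast_sub]
      exact Finset.card_le_univ B
    have hcA : ((univ \ A : Finset V).card : ℝ) = n - A.card := by
      rw [Finset.card_sdiff_of_subset (subset_univ _), Finset.card_univ, Nat.cast_sub]
      exact Finset.card_le_univ A
    have hsym : ff G ((d : ℝ) / 2) univ (univ \ B) (univ \ A) = ff G ((d : ℝ) / 2) univ A B := by
      unfold ff
      rw [hcA, hcB, show (univ \ (univ \ A) : Finset V) = A by simp, ee_symm]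
      ring
    rw [hsym, hcB] at h
    refine le_trans ?_ h
    have e : (γ / 2 - ε) * d * (n - B.card) = d * ((γ / 2 - ε) * (n - B.card)) := by ring
    rw [e]
    apply key
    have hB3 : (4 : ℝ) * B.card ≤ 3 * n := by exact_mod_cast hB
    have : (n : ℝ) / 4 ≤ n - B.card := by linarith
    have h2 : (γ / 2 - ε) * (n / 4) ≤ (γ / 2 - ε) * (n - B.card) :=
      mul_le_mul_of_nonneg_left this (by linarith)
    nlinarith
  · have hB3 : (2 : ℝ) * B.card ≤ n := by exact_mod_cast hB2
    rcases le_total (γ * n / 4) ((A.card : ℝ) - B.card) with hab | hab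
    · have h1 := deg_sum_ge G hNR A
      have hr := ee_le_right G hd A B
      unfold ff
      rw [ee_compl]
      have h2 : d * ((1 / 2 - ε) * A.card - B.card / 2) ≤
          ((∑ a ∈ A, ((nb G a).card : ℝ)) - ee G A B) + d / 2 * ((B.card : ℝ) - A.card) := by
        nlinarith
      refine le_trans (key _ ?_) h2
      nlinarith
    · obtain ⟨A', hA', hcard⟩ := Finset.exists_subset_card_eq (s := A) (n := n / 2) (by omega)
      have h := fn_small G hNR hBE A' B (by rw [hcard]; omega)
      have hmono := ee_mono_left G hA' (univ \ B)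
      have hhalf : (n : ℝ) - 1 ≤ 2 * A'.card := by
        rw [hcard]
        have : n ≤ 2 * (n / 2) + 1 := by omega
        have h' : (n : ℝ) ≤ 2 * ((n / 2 : ℕ) : ℝ) + 1 := by exact_mod_cast this
        linarith
      unfold ff at h ⊢
      have h3 : d * ((γ / 2 - ε) * A'.card - (A.card - A'.card) / 2) ≤
          ee G A (univ \ B) + d / 2 * ((B.card : ℝ) - A.card) := by
        nlinarith
      refine le_trans (key _ ?_) h3
      have h4 : (A.card : ℝ) - A'.card ≤ γ * n / 4 + 1 / 2 := by linarith
      have h5 : (γ / 2 - ε) * ((n - 1) / 2) ≤ (γ / 2 - ε) * A'.card :=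
        mul_le_mul_of_nonneg_left (by linarith) (by linarith)
      have h6 : ε * n ≤ γ / 100 * n := mul_le_mul_of_nonneg_right hεγ hn0
      nlinarith

end Pool.Agent.Work.MP_db9399_px.helper99
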